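import Pool.Agent.Helper7.AC.Defs

set_option autoImplicit false

namespace Pool.Agent.Helper7.AC

open Nat.Partrec (Code)
open Denumerable Encodable

namespace KT

theorem pre_length (X : ℕ → Bool) (k : ℕ) : (pre X k).length = k := by
  simp [pre]

theorem pre_getElem (X : ℕ → Bool) (k x : ℕ) (hx : x < (pre X k).length) :
    (pre X k)[x] = X x := by
  simp [pre]

theorem take_pre (X : ℕ → Bool) (j k : ℕ) (h : j ≤ k) : (pre X k).take j = pre X j := by
  apply List.ext_getElem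
  · simp [pre_length, h]
  · intro i h1 h2
    simp [pre]

theorem pre_prefix (X : ℕ → Bool) {j k : ℕ} (h : j ≤ k) : pre X j <+: pre X k := by
  rw [← take_pre X j k h]
  exact List.take_prefix _ _

theorem prefix_pre {X : ℕ → Bool} {k : ℕ} {ρ : List Bool} (h : ρ <+: pre X k) :
    ρ = pre X ρ.length := by
  have hl : ρ.length ≤ k := by simpa [pre_length] using h.length_le
  rw [List.prefix_iff_eq_take] at h
  rw [take_pre X _ _ hl] at h
  exact h

theorem V_mono {c : Code} {σ τ : List Bool} {n m : ℕ} (h : σ <+: τ) (hV : V c σ n m) :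
    V c τ n m := by
  obtain ⟨k, hk, he⟩ := hV
  refine ⟨k, hk.trans h.length_le, ?_⟩
  have : τ.take k = σ.take k := by
    obtain ⟨r, rfl⟩ := h
    rw [List.take_append_of_le_length hk]
  rw [this]
  exact Code.evaln_mono h.length_le he

theorem VD_mono {c : Code} {σ τ : List Bool} {q : ℕ} (h : σ <+: τ) (hV : VD c σ q) :
    VD c τ q := by
  obtain ⟨m, hm⟩ := hV
  exact ⟨m, V_mono h hm⟩

theorem stepA_prefix {A : ℕ → Bool} {e : ℕ} {σ σ' : List Bool} {l l' : List ℕ}
    (h : StepA A e σ l σ' l') : σ <+: σ' := by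
  rcases h with ⟨_, ⟨n, m, _, hF, _⟩, _⟩ | ⟨_, rfl, _⟩
  · exact hF.1
  · exact List.prefix_rfl

theorem addreq_prefix (O : ℕ → Bool) (σ : List Bool) (p : ℕ) : σ <+: addreq O σ p := by
  unfold addreq
  rw [List.append_assoc]
  exact List.prefix_append _ _

theorem stepB_prefix {O : ℕ → Bool} {p : ℕ} {σ σ' : List Bool} {l l' : List ℕ}
    (h : StepB O p σ l σ' l') : σ <+: σ' := by
  rcases h with ⟨_, rfl, _⟩ | ⟨_, rfl, _⟩
  · exact addreq_prefix O σ p
  · exact List.prefix_rfl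

theorem step_prefix {A O : ℕ → Bool} {s : ℕ} {x y : State} (h : Step A O s x y) :
    x.1 <+: y.1 ∧ x.1.length + 1 ≤ y.1.length := by
  obtain ⟨σ', σ'', a', p', hA, hB, rfl⟩ := h
  have h1 := stepA_prefix hA
  have h2 := stepB_prefix hB
  have h3 := h1.trans h2
  refine ⟨h3.trans (List.prefix_append _ _), ?_⟩
  have := h3.length_le
  simp
  omega

theorem run_length {A O : ℕ → Bool} {st : ℕ → State} (h : Run A O st) (s : ℕ) :
    s ≤ (st s).1.length := by
  induction s with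
  | zero => exact Nat.zero_le _
  | succ s ih =>
    have := (step_prefix (h.step s)).2
    omega

theorem req_ge (O : ℕ → Bool) (p j : ℕ) : j ≤ req O p j := by
  unfold req
  exact (Nat.right_le_pair _ _).trans (Nat.right_le_pair _ _)

theorem addreq_length (O : ℕ → Bool) (σ : List Bool) (p : ℕ) :
    (addreq O σ p).length = req O p σ.length + 1 := by
  unfold addreq
  have := req_ge O p σ.length
  simp
  omega

theorem addreq_get (O : ℕ → Bool) (σ : List Bool) (p : ℕ) :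
    (addreq O σ p)[req O p σ.length]? = some true := by
  unfold addreq
  have := req_ge O p σ.length
  rw [List.getElem?_append_right (by simp; omega)]
  have h2 : req O p σ.length -
      (σ ++ List.replicate (req O p σ.length - σ.length) false).length = 0 := by
    simp
    omega
  rw [h2]
  simp

/-- the invariant -/
def Inv (O B : ℕ → Bool) (l : List ℕ) : Prop :=
  l.Nodup ∧ ∀ q ∈ l, (∃ t, VD (ofNat Code (ti q)) (pre B t) (tq q)) ∧
    ∃ j, B (req O q j) = true

theorem inv_step {A O B : ℕ → Bool} {st : ℕ → State} (hL : Lim st B) {s : ℕ}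
    (h : Step A O s (st s) (st (s + 1))) (hi : Inv O B (st s).2.2) :
    Inv O B (st (s + 1)).2.2 := by
  obtain ⟨σ', σ'', a', p', hA, hB, he⟩ := h
  have hlim := hL (s + 1)
  have e1 : (st (s + 1)).1 = σ'' ++ [false] := by rw [he]
  have e2 : (st (s + 1)).2.2 = p' := by rw [he]
  rw [e1] at hlim
  have hpre : σ'' <+: pre B (σ'' ++ [false]).length := by
    rw [hlim]
    exact List.prefix_append _ _
  rw [e2]
  rcases hB with ⟨hG, hs, rfl⟩ | ⟨_, _, rfl⟩
  · refine ⟨List.nodup_cons.2 ⟨hG.1, hi.1⟩, ?_⟩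
    intro q hq
    rcases List.mem_cons.1 hq with rfl | hq
    · have h1 : σ' <+: pre B (σ'' ++ [false]).length := by
        refine List.IsPrefix.trans ?_ hpre
        rw [hs]
        exact addreq_prefix _ _ _
      have h1' := prefix_pre h1
      refine ⟨⟨σ'.length, by rw [← h1']; exact hG.2.1⟩, σ'.length, ?_⟩
      have h2 : (addreq O σ' (Nat.unpair s).1) <+: pre B (σ'' ++ [false]).length := by
        rw [← hs]; exact hpre
      have h3 := prefix_pre h2
      have h4 := addreq_get O σ' (Nat.unpair s).1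
      rw [h3] at h4
      rw [List.getElem?_eq_some_iff] at h4
      obtain ⟨hh, h5⟩ := h4
      rw [pre_getElem] at h5
      exact h5
    · exact hi.2 q hq
  · exact hi

theorem inv {A O B : ℕ → Bool} {st : ℕ → State} (h : Run A O st) (hL : Lim st B) (s : ℕ) :
    Inv O B (st s).2.2 := by
  induction s with
  | zero => rw [h.zero]; exact ⟨List.nodup_nil, by simp⟩
  | succ s ih => exact inv_step hL (h.step s) ih

theorem geom_tail (a K : ℕ) : ∑ k ∈ Finset.Ico a K, (1 / 2 : ℝ) ^ k ≤ 2 * (1 / 2 : ℝ) ^ a := by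
  have : ∀ K, ∑ k ∈ Finset.Ico a (a + K), (1 / 2 : ℝ) ^ k ≤
      2 * (1 / 2 : ℝ) ^ a - (1 / 2 : ℝ) ^ (a + K) * 2 := by
    intro K
    induction K with
    | zero => simp [mul_comm]
    | succ K ih =>
      rw [← add_assoc, Finset.sum_Ico_succ_top (by omega)]
      have : (1 / 2 : ℝ) ^ (a + K + 1) = (1 / 2 : ℝ) ^ (a + K) / 2 := by
        rw [pow_succ]; ring
      rw [this]
      linarith
  by_cases h : a ≤ K
  · obtain ⟨m, rfl⟩ := Nat.exists_eq_add_of_le h
    have h2 : (0 : ℝ) ≤ (1 / 2 : ℝ) ^ (a + m) * 2 := by positivity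
    linarith [this m]
  · rw [Finset.Ico_eq_empty_of_le (by omega)]
    simp

theorem q_eq (q : ℕ) : q = Nat.pair (ti q) (Nat.pair (tn q) (tk q)) := by
  unfold ti tn tk
  rw [Nat.pair_unpair, Nat.pair_unpair]

theorem tq_eq (q : ℕ) : tq q = Nat.pair (tn q) (tk q) := by
  unfold tq tn tk
  rw [Nat.pair_unpair]

theorem budget_eq (l : List ℕ) (hl : l.Nodup) (i : ℕ) :
    budget l i = ∑ q ∈ l.toFinset with ti q = i, (1 / 2 : ℝ) ^ tk q := by
  unfold budget
  rw [← List.sum_toFinset _ hl, Finset.sum_filter]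

theorem budget_ok {l : List ℕ} (hl : l.Nodup) (i : ℕ) (f : ℕ → ℕ)
    (hf : ∀ s : Finset ℕ, ∑ n ∈ s, (1/2 : ℝ) ^ (f n) ≤ 1)
    (h : ∀ q ∈ l, ti q = i → f (tn q) ≤ tk q) : budget l i ≤ 2 := by
  rw [budget_eq l hl]
  set L : Finset ℕ := {q ∈ l.toFinset | ti q = i} with hLdef
  set N : Finset ℕ := L.image tn
  obtain ⟨K, hK⟩ : ∃ K, ∀ q ∈ L, tk q < K := by
    refine ⟨(∑ q ∈ L, tk q) + 1, fun q hq => ?_⟩
    have := Finset.single_le_sum (f := tk) (fun _ _ => Nat.zero_le _) hq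
    omega
  have h1 : ∑ q ∈ L, (1 / 2 : ℝ) ^ tk q ≤
      ∑ x ∈ N.sigma (fun n => Finset.Ico (f n) K), (1 / 2 : ℝ) ^ x.2 := by
    have e : ∑ q ∈ L, (1 / 2 : ℝ) ^ tk q =
        ∑ x ∈ L.image (fun q => (⟨tn q, tk q⟩ : (_ : ℕ) × ℕ)), (1 / 2 : ℝ) ^ x.2 := by
      rw [Finset.sum_image]
      intro a ha b hb hab
      have ha' : ti a = i := (Finset.mem_filter.1 ha).2
      have hb' : ti b = i := (Finset.mem_filter.1 hb).2
      have h2 : tn a = tn b ∧ tk a = tk b := by
        simpa using hab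
      rw [q_eq a, q_eq b, ha', hb', h2.1, h2.2]
    rw [e]
    apply Finset.sum_le_sum_of_subset_of_nonneg
    · intro x hx
      obtain ⟨q, hq, rfl⟩ := Finset.mem_image.1 hx
      have hq' := Finset.mem_filter.1 hq
      refine Finset.mem_sigma.2 ⟨Finset.mem_image_of_mem _ hq, Finset.mem_Ico.2 ⟨?_, hK q hq⟩⟩
      exact h q (List.mem_toFinset.1 hq'.1) hq'.2
    · intro _ _ _
      positivity
  refine h1.trans ?_
  rw [Finset.sum_sigma]
  calc ∑ n ∈ N, ∑ k ∈ Finset.Ico (f n) K, (1 / 2 : ℝ) ^ k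
      ≤ ∑ n ∈ N, 2 * (1 / 2 : ℝ) ^ (f n) := Finset.sum_le_sum fun n _ => geom_tail _ _
    _ = 2 * ∑ n ∈ N, (1 / 2 : ℝ) ^ (f n) := by rw [Finset.mul_sum]
    _ ≤ 2 := by linarith [hf N]

end KT

open KT in
theorem ktriv {A O : ℕ → Bool} {st : ℕ → State} {B : ℕ → Bool} (h : Run A O st) (hL : Lim st B)
    (f : ℕ → ℕ) (hf : ∀ s : Finset ℕ, ∑ n ∈ s, (1/2 : ℝ) ^ (f n) ≤ 1) (c : Code)
    (hc : ∀ n k, (f n ≤ k ↔ ∃ t, VD c (pre B t) (Nat.pair n k))) :
    ∃ d, ∀ n, hB B (pre O n) ≤ f n + d := by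
  refine ⟨encode c + 3, fun n => ?_⟩
  obtain ⟨t, ht⟩ := (hc n (f n)).1 le_rfl
  set p : ℕ := Nat.pair (encode c) (Nat.pair n (f n)) with hp
  have ep1 : ti p = encode c := by simp [hp, ti]
  have ep2 : tn p = n := by simp [hp, tn]
  have ep3 : tk p = f n := by simp [hp, tk]
  have ep4 : tq p = Nat.pair n (f n) := by simp [hp, tq]
  have ec : ofNat Code (ti p) = c := by rw [ep1]; simp
  set s : ℕ := Nat.pair p t with hs
  have hst : t ≤ s := Nat.right_le_pair _ _
  have hu : (Nat.unpair s).1 = p := by simp [hs]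
  -- the step
  have hmem : p ∈ (st (s + 1)).2.2 := by
    have hi := inv h hL s
    have hi' := inv h hL (s + 1)
    obtain ⟨σ', σ'', a', p', hA, hB', he⟩ := h.step s
    have e2 : (st (s + 1)).2.2 = p' := by rw [he]
    rw [e2]
    have hσ : pre B t <+: σ' := by
      refine List.IsPrefix.trans ?_ (stepA_prefix hA)
      have h1 := hL s
      rw [← h1]
      exact pre_prefix B (hst.trans (run_length h s))
    have hVD : VD c σ' (tq p) := by
      rw [ep4]
      exact VD_mono hσ ht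
    rw [hu] at hB'
    rcases hB' with ⟨hG, _, rfl⟩ | ⟨hG, _, rfl⟩
    · exact List.mem_cons_self
    · by_contra hpn
      apply hG
      refine ⟨hpn, by rw [ec]; exact hVD, ?_⟩
      have hnd : (p :: (st s).2.2).Nodup := List.nodup_cons.2 ⟨hpn, hi.1⟩
      have hb := budget_ok hnd (ti p) f hf (by
        intro q hq hqi
        rcases List.mem_cons.1 hq with rfl | hq
        · rw [ep2, ep3]
        · obtain ⟨⟨t', ht'⟩, _⟩ := hi.2 q hq
          rw [hqi, ec, tq_eq] at ht'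
          exact (hc _ _).2 ⟨t', ht'⟩)
      have : budget (p :: (st s).2.2) (ti p) =
          (1 / 2 : ℝ) ^ tk p + budget (st s).2.2 (ti p) := by
        simp [budget]
      linarith
  obtain ⟨_, j, hj⟩ := (inv h hL (s + 1)).2 p hmem
  unfold hB
  apply Nat.sInf_le
  left
  refine ⟨j, ?_⟩
  unfold req at hj
  rw [ep1, ep2, ep3] at hj
  rw [show f n + (encode c + 3) = f n + encode c + 3 by ring]
  exact hj

theorem hB_sum {B : ℕ → Bool} (hW : ∀ T, S B 0 T ≤ 3 / 4) (s : Finset (List Bool)) :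
    ∑ ρ ∈ s, (1/2 : ℝ) ^ (hB B ρ) ≤ 1 := by
  classical
  have key : ∀ ρ : List Bool, (∃ j, B (Nat.pair (hB B ρ) (Nat.pair (encode ρ) j)) = true) ∨
      hB B ρ = encode ρ + 3 := by
    intro ρ
    have hne : ({r | ∃ j, B (Nat.pair r (Nat.pair (encode ρ) j)) = true} ∪
        {encode ρ + 3}).Nonempty := ⟨encode ρ + 3, Or.inr rfl⟩
    rcases Nat.sInf_mem hne with h | h
    · exact Or.inl h
    · exact Or.inr h
  let P : List Bool → Prop := fun ρ => ∃ j, B (Nat.pair (hB B ρ) (Nat.pair (encode ρ) j)) = true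
  let x : List Bool → ℕ := fun ρ =>
    if h : P ρ then Nat.pair (hB B ρ) (Nat.pair (encode ρ) h.choose) else 0
  have hx1 : ∀ ρ, P ρ → B (x ρ) = true ∧ (Nat.unpair (x ρ)).1 = hB B ρ ∧
      (Nat.unpair (Nat.unpair (x ρ)).2).1 = encode ρ := by
    intro ρ hρ
    simp only [x, dif_pos hρ]
    refine ⟨hρ.choose_spec, by simp, by simp⟩
  obtain ⟨T, hT⟩ : ∃ T, ∀ ρ ∈ s, x ρ < T := by
    refine ⟨(∑ ρ ∈ s, x ρ) + 1, fun ρ hρ => ?_⟩
    have := Finset.single_le_sum (f := x) (fun _ _ => Nat.zero_le _) hρ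
    omega
  have hA : ∑ ρ ∈ s with P ρ, (1/2 : ℝ) ^ (hB B ρ) ≤ 3 / 4 := by
    refine le_trans ?_ (hW T)
    unfold S
    rw [← Finset.sum_filter]
    have e : ∑ ρ ∈ s with P ρ, (1/2 : ℝ) ^ (hB B ρ) =
        ∑ y ∈ ({ρ ∈ s | P ρ} : Finset (List Bool)).image x, (1 / 2 : ℝ) ^ (Nat.unpair y).1 := by
      rw [Finset.sum_image]
      · apply Finset.sum_congr rfl
        intro ρ hρ
        rw [(hx1 ρ (Finset.mem_filter.1 hρ).2).2.1]
      · intro a ha b hb hab
        have ha' := (hx1 a (Finset.mem_filter.1 ha).2).2.2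
        have hb' := (hx1 b (Finset.mem_filter.1 hb).2).2.2
        have : encode a = encode b := by rw [← ha', ← hb', hab]
        exact Encodable.encode_injective this
    rw [e]
    apply Finset.sum_le_sum_of_subset_of_nonneg
    · intro y hy
      obtain ⟨ρ, hρ, rfl⟩ := Finset.mem_image.1 hy
      have hρ' := Finset.mem_filter.1 hρ
      refine Finset.mem_filter.2 ⟨Finset.mem_Ico.2 ⟨Nat.zero_le _, hT ρ hρ'.1⟩, (hx1 ρ hρ'.2).1⟩
    · intro _ _ _
      positivity
  have hBd : ∑ ρ ∈ s with ¬ P ρ, (1/2 : ℝ) ^ (hB B ρ) ≤ 1 / 4 := by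
    have e1 : ∑ ρ ∈ s with ¬ P ρ, (1/2 : ℝ) ^ (hB B ρ) =
        ∑ ρ ∈ s with ¬ P ρ, (1/2 : ℝ) ^ (encode ρ + 3) := by
      apply Finset.sum_congr rfl
      intro ρ hρ
      have := (key ρ).resolve_left (Finset.mem_filter.1 hρ).2
      rw [this]
    rw [e1]
    have e2 : ∑ ρ ∈ s with ¬ P ρ, (1/2 : ℝ) ^ (encode ρ + 3) =
        ∑ m ∈ ({ρ ∈ s | ¬ P ρ} : Finset (List Bool)).image encode, (1/2 : ℝ) ^ (m + 3) := by
      rw [Finset.sum_image]
      intro a _ b _ hab
      exact Encodable.encode_injective hab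
    rw [e2]
    obtain ⟨K, hK⟩ : ∃ K, ∀ m ∈ ({ρ ∈ s | ¬ P ρ} : Finset (List Bool)).image encode, m < K := by
      refine ⟨(∑ m ∈ ({ρ ∈ s | ¬ P ρ} : Finset (List Bool)).image encode, m) + 1,
        fun m hm => ?_⟩
      have := Finset.single_le_sum (f := fun m : ℕ => m) (fun _ _ => Nat.zero_le _) hm
      omega
    calc ∑ m ∈ ({ρ ∈ s | ¬ P ρ} : Finset (List Bool)).image encode, (1/2 : ℝ) ^ (m + 3)
        ≤ ∑ m ∈ Finset.Ico 0 K, (1/2 : ℝ) ^ (m + 3) := by
          apply Finset.sum_le_sum_of_subset_of_nonneg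
          · intro m hm
            exact Finset.mem_Ico.2 ⟨Nat.zero_le _, hK m hm⟩
          · intro _ _ _
            positivity
      _ = (∑ m ∈ Finset.Ico 0 K, (1/2 : ℝ) ^ m) * (1 / 8) := by
          rw [Finset.sum_mul]
          apply Finset.sum_congr rfl
          intro m _
          rw [pow_add]
          norm_num
      _ ≤ (2 * (1/2 : ℝ) ^ 0) * (1 / 8) := by
          have := KT.geom_tail 0 K
          linarith
      _ = 1 / 4 := by norm_num
  rw [← Finset.sum_filter_add_sum_filter_not s P]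
  linarith

end Pool.Agent.Helper7.AC
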